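import Pool.Agent.TH323.MBasis

/-!
# A Banach space with an extended Markushevich basis that contains `ℓ_∞`

The space is `ℓ_∞ ⊕ ℓ₁(I)` where `I` is the set of the bounded sequences `x` with `‖x n‖ ≤ n + 1`.
The vectors of the basis are `(e_n, 0)` and `(x, δ_x)`, the functionals are
`(u, z) ↦ u n - ∑ z_x x(n)` and `(u, z) ↦ z_x`.
-/

set_option autoImplicit false

open Filter Topology ENNReal

namespace Pool.Agent.Results.MP_810de6_an.ContainsLinfty

/-- `(x i, f i)` is an extended Markushevich basis of `E`: biorthogonal, the closed linear span of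
the vectors `x i` is `E` and the functionals `f i` are total. -/
def IsExtendedMBasis {𝕜 E ι : Type} [RCLike 𝕜] [NormedAddCommGroup E] [NormedSpace 𝕜 E]
    (x : ι → E) (f : ι → (E →L[𝕜] 𝕜)) : Prop :=
  (∀ i, f i (x i) = 1) ∧ (∀ i j, i ≠ j → f i (x j) = 0) ∧
    (Submodule.span 𝕜 (Set.range x)).topologicalClosure = ⊤ ∧ ∀ z : E, (∀ i, f i z = 0) → z = 0

open Pool.Agent.TH323.MBasis in
/-- Both for real and for complex scalars there is a Banach space `E` with an extended Markushevich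
basis and with a closed subspace `G` linearly homeomorphic (even isometric) to `ℓ_∞`. -/
theorem result (𝕜 : Type) [RCLike 𝕜] :
    ∃ (E : Type) (_ : NormedAddCommGroup E) (_ : NormedSpace 𝕜 E),
      CompleteSpace E ∧
      (∃ (ι : Type) (x : ι → E) (f : ι → (E →L[𝕜] 𝕜)), IsExtendedMBasis x f) ∧
      ∃ G : Submodule 𝕜 E, IsClosed (G : Set E) ∧
        Nonempty (lp (fun _ : ℕ => 𝕜) ∞ ≃ₗᵢ[𝕜] G) := by
  refine ⟨E 𝕜, inferInstance, inferInstance, inferInstance, ⟨ℕ ⊕ I 𝕜, v, f, ?_, ?_, ?_, ?_⟩, ?_⟩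
  · intro i
    rw [f_v, if_pos rfl]
  · intro i j hij
    rw [f_v, if_neg hij]
  · exact fundamental
  · exact total
  · let J : Linf 𝕜 →ₗᵢ[𝕜] E 𝕜 :=
      { toLinearMap := LinearMap.inl 𝕜 (Linf 𝕜) (L1 𝕜)
        norm_map' := fun u => by
          change ‖((u, 0) : E 𝕜)‖ = ‖u‖
          rw [Prod.norm_def]
          simp }
    refine ⟨LinearMap.range J.toLinearMap, ?_, ⟨J.equivRange⟩⟩
    have : ((LinearMap.range J.toLinearMap : Submodule 𝕜 (E 𝕜)) : Set (E 𝕜)) = Set.range J := by
      ext; simp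
    rw [this]
    exact J.isometry.isClosedEmbedding.isClosed_range

end Pool.Agent.Results.MP_810de6_an.ContainsLinfty
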